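import Pool.Agent.H343.AN.StE

set_option autoImplicit false

/-!
# Project AN (helper343, MP_aa4716_al): E1, matching of axes
-/

namespace Pool.Agent.H553.AN

open Pool.Agent.TH68 Pool.Agent.Helper97.Hyp Pool.Agent.H343.AN

section

variable {Γ : Type} [Group Γ] {W : WNorm Γ} {𝒜 : Type} [MulAction Γ 𝒜] (Y : Sys Γ W 𝒜)

/-- a point of the segment `[o, u]` between the projections -/
theorem mid (A : 𝒜) {o u e x : Pt W} (he : IsProj Y.θ (Y.S A) o e)
    (hx : IsProj Y.θ (Y.S A) u x) (h2 : exc o u x ≤ 4 * Y.θ)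
    (k : ℕ) (hk1 : dist o e + 10000 * Y.θ ≤ k) (hk2 : (k : ℝ) ≤ dist o x - 10000 * Y.θ) :
    ∃ p s, dist o p = k ∧ exc o u p = 0 ∧ IsProj Y.θ (Y.S A) p s ∧ dist p s ≤ 3 * Y.θ ∧
      9000 * Y.θ ≤ pd (Y.S A) u p ∧ 9000 * Y.θ ≤ pd (Y.S A) o p ∧ dist x u ≤ dist p u := by
  have hδ := Y.hδ
  have hθ := Y.hθ
  have hxu := dist_nonneg (x := x) (y := u)
  have hku : (k : ℝ) ≤ dist o u := by
    unfold exc at h2
    linarith
  obtain ⟨p, hp1, hp2⟩ := exists_between o u k hku
  have hp0 : exc o u p = 0 := by unfold exc; linarith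
  obtain ⟨s, hs⟩ := Y.proj A p
  have ha : exc o x p ≤ 2 * Y.δ := by
    rcases exc_split Y.hyp o u x p with h | h
    · linarith
    · exfalso
      have := dist_nonneg (x := x) (y := p)
      unfold exc at h h2 hp0
      linarith
  have hb : exc e x p ≤ 4 * Y.δ := by
    rcases exc_split Y.hyp o x e p with h | h
    · exfalso
      have := dist_nonneg (x := p) (y := e)
      unfold exc at h ha
      linarith
    · linarith
  have hc : dist p s ≤ 3 * Y.θ := by
    have e1 := hs.2 e he.1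
    have e2 := hs.2 x hx.1
    have e3 := dist_triangle e s x
    rw [dist_comm e s] at e3
    unfold exc at hb
    rw [dist_comm e p] at hb
    linarith
  refine ⟨p, s, hp1, hp0, hs, hc, ?_, ?_, ?_⟩
  · have e1 := le_pd_of_proj hx hs
    have e2 := dist_triangle4 o x s p
    have e3 := dist_triangle o p x
    have e4 := dist_triangle p s x
    rw [dist_comm s x] at e4
    linarith
  · have e1 := le_pd_of_proj he hs
    have e2 := dist_triangle4 o e s p
    rw [dist_comm s p] at e2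
    linarith
  · unfold exc at h2
    linarith

end

theorem e1 : ToolB → S_d3 → S_e1 := by
  intro TB hD3 Γ _ W 𝒜 _ Y R hρ A o u v x m hm hou hov huv hlam hx hfar
  have hδ := Y.hδ
  have hθ := Y.hθ
  have hθ0 : 0 ≤ Y.θ := by linarith
  have hSne := Y.Sne
  obtain ⟨e, he⟩ := Y.proj A o
  obtain ⟨n1, n2, n3⟩ := TB.near Y A he hx (by linarith)
  have hle := TB.redpd Y R hρ A (η := 0) le_rfl (Redu.of_red hou le_rfl)
  have hex := le_pd_of_proj he hx
  have huv0 := dist_nonneg (x := u) (y := m • v)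
  set lam := pd (Y.S A) o u with hlamd
  have hlx : dist o e + lam - 5 * Y.θ ≤ dist o x := by
    have := dist_triangle o x u
    rw [dist_comm x u] at this
    linarith
  have hlx2 : dist o x ≤ dist o e + dist e x := dist_triangle _ _ _
  have hoe := dist_nonneg (x := o) (y := e)
  -- the second alternative of D3
  have alt2 : ∀ p : Pt W, 9000 * Y.θ ≤ pd (Y.S A) u p → 9000 * Y.θ ≤ pd (Y.S A) o p →
      (∃ B, ∃ m' ∈ R.N, ∃ y z, exc o u y = 0 ∧ exc o v z = 0 ∧
      R.ρ / 2 - 600 * Y.θ ≤ pd (Y.S B) o y ∧ R.ρ / 2 - 600 * Y.θ ≤ pd (Y.S B) (m' • o) (m' • z) ∧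
      ∃ s ∈ Y.S B, dist p s ≤ 30 * Y.θ) →
      ∃ m' ∈ R.N, lam ≤ pd (Y.S A) (m' • o) (m' • v) + 10 ^ 5 * Y.θ := by
    rintro p hpu hpo ⟨B, m', hm', y, z, hy, hz, h1, h2, s, hs, hps⟩
    have h3 := TB.mono Y B (c := 0) le_rfl (exc_left o u).le hy.le
    have hBA : B = A := by
      by_contra hne
      rcases TB.order Y (Ne.symm hne) o u (by linarith) (by linarith) with h4 | h4
      · have h5 := (h4 e he.1 s hs).2
        have h6 := pd_tri (hSne A) u s p
        have h7 := pd_le_dist (hSne A) s p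
        rw [dist_comm s p] at h7
        linarith
      · have h5 := (h4 e he.1 s hs).1
        have h6 := pd_tri (hSne A) o s p
        have h7 := pd_le_dist (hSne A) s p
        rw [dist_comm s p] at h7
        linarith
    subst hBA
    have hz' : exc (m' • o) (m' • v) (m' • z) ≤ 0 := by rw [exc_smul]; exact hz.le
    have h8 := TB.mono Y B (c := 0) le_rfl (exc_left (m' • o) (m' • v)).le hz'
    exact ⟨m', hm', by linarith⟩
  -- the three points
  have hk1 := Nat.le_ceil (dist o e + 10000 * Y.θ)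
  have hk1' := Nat.ceil_lt_add_one (a := dist o e + 10000 * Y.θ) (by positivity)
  set k1 := ⌈dist o e + 10000 * Y.θ⌉₊ with hk1d
  have hk0 := Nat.floor_le (a := (dist o e + dist o x) / 2) (by positivity)
  have hk0' := Nat.lt_floor_add_one ((dist o e + dist o x) / 2)
  set k0 := ⌊(dist o e + dist o x) / 2⌋₊ with hk0d
  have hk2 := Nat.floor_le (a := dist o x - 10000 * Y.θ) (by linarith)
  have hk2' := Nat.lt_floor_add_one (dist o x - 10000 * Y.θ)
  set k2 := ⌊dist o x - 10000 * Y.θ⌋₊ with hk2d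
  obtain ⟨p1, s1, a1, b1, c1, d1, f1, g1, i1⟩ := mid Y A he hx n3 k1 hk1 (by linarith)
  obtain ⟨p0, s0, a0, b0, c0, d0, f0, g0, i0⟩ := mid Y A he hx n3 k0 (by linarith) (by linarith)
  obtain ⟨p2, s2, a2, b2, c2, d2, f2, g2, i2⟩ := mid Y A he hx n3 k2 (by linarith) hk2
  rcases hD3 Y R hρ hm hou hov huv b1 (by linarith) with ⟨m1, hm1, q1, hq1, hd1⟩ | h
  swap
  · exact alt2 p1 f1 g1 h
  rcases hD3 Y R hρ hm hou hov huv b0 (by linarith) with ⟨m0, hm0, q0, hq0, hd0⟩ | h
  swap
  · exact alt2 p0 f0 g0 h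
  rcases hD3 Y R hρ hm hou hov huv b2 (by linarith) with ⟨m2, hm2, q2, hq2, hd2⟩ | h
  swap
  · exact alt2 p2 f2 g2 h
  -- the positions of the points q
  have pos : ∀ (p q : Pt W) (n : Γ), n ∈ R.N → exc o u p = 0 → exc o v q = 0 →
      dist p (n • q) ≤ 3000 * Y.θ → dist o p ≤ dist o q + 3000 * Y.θ ∧
        dist o q ≤ dist o p + 3000 * Y.θ := by
    intro p q n hn hp hq hd
    constructor
    · have h1 := (hou.left hp) n⁻¹ (R.N.inv_mem hn)
      have h2 := dist_triangle o q (n⁻¹ • p)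
      have h3 : dist q (n⁻¹ • p) = dist (n • q) p := by
        rw [← dist_smul n q, smul_inv_smul]
      rw [h3, dist_comm] at h2
      linarith [dist_comm o q, dist_comm p (n • q), dist_comm (n • q) p,
        dist_comm (n⁻¹ • p) o]
    · have h1 := (hov.left hq) n hn
      have h2 := dist_triangle o p (n • q)
      linarith
  obtain ⟨u1, v1⟩ := pos p1 q1 m1 hm1 b1 hq1 hd1
  obtain ⟨u0, v0⟩ := pos p0 q0 m0 hm0 b0 hq0 hd0
  obtain ⟨u2, v2⟩ := pos p2 q2 m2 hm2 b2 hq2 hd2
  -- two such points which are not too far have the same translate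
  have same : ∀ (p q p' q' : Pt W) (n n' : Γ), n ∈ R.N → n' ∈ R.N → exc o u p = 0 →
      exc o u p' = 0 → exc o v q = 0 → exc o v q' = 0 → dist p (n • q) ≤ 3000 * Y.θ →
      dist p' (n' • q') ≤ 3000 * Y.θ → 2 * |dist o p - dist o p'| ≤ R.ρ / 2 + 7 * Y.θ →
      n' = n := by
    intro p q p' q' n n' hn hn' hp hp' hq hq' hd hd' hk
    by_contra hne
    have hnn : n' * n⁻¹ ≠ 1 := fun h => hne (mul_inv_eq_one.mp h)
    obtain ⟨C, r, hr, hr1, h1, h2⟩ := TB.wind Y R (R.N.mul_mem hn' (R.N.inv_mem hn)) hnn (n • q')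
    have h3 := pd_le_dist (hSne C) (n • q') ((n' * n⁻¹) • n • q')
    have h4 : (n' * n⁻¹) • n • q' = n' • q' := by
      rw [smul_smul, inv_mul_cancel_right]
    rw [h4] at h2 h3
    obtain ⟨u3, v3⟩ := pos p q n hn hp hq hd
    obtain ⟨u4, v4⟩ := pos p' q' n' hn' hp' hq' hd'
    have h5 := order_close Y.hyp (x := o) (y := v) (z := q') (t := q) (a := 0) hq'.le hq.le
    have h6 := order_close Y.hyp (x := o) (y := u) (z := p) (t := p') (a := 0) hp.le hp'.le
    have h7 : |dist o q' - dist o q| ≤ |dist o p - dist o p'| + 6000 * Y.θ := by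
      rw [abs_le]
      have e1 := le_abs_self (dist o p - dist o p')
      have e2 := neg_abs_le (dist o p - dist o p')
      constructor <;> linarith
    have h8 : dist (n • q') (n' • q') ≤ dist q' q + dist p (n • q) + dist p p' +
        dist p' (n' • q') := by
      have e1 := dist_triangle (n • q') (n • q) (n' • q')
      rw [dist_smul] at e1
      have e2 := dist_triangle4 (n • q) p p' (n' • q')
      rw [dist_comm (n • q) p] at e2
      linarith
    linarith
  have m10 : m1 = m0 := by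
    refine same p0 q0 p1 q1 m0 m1 hm0 hm1 b0 b1 hq0 hq1 hd0 hd1 ?_
    rw [a0, a1]
    have : |(k0 : ℝ) - k1| ≤ R.ρ / 4 + 3 * Y.θ := by
      rw [abs_le]
      constructor <;> linarith
    linarith
  have m20 : m2 = m0 := by
    refine same p0 q0 p2 q2 m0 m2 hm0 hm2 b0 b2 hq0 hq2 hd0 hd2 ?_
    rw [a0, a2]
    have : |(k0 : ℝ) - k2| ≤ R.ρ / 4 + 3 * Y.θ := by
      rw [abs_le]
      constructor <;> linarith
    linarith
  subst m10
  subst m20
  refine ⟨m2, hm2, ?_⟩
  have t1 := le_pd_of_proj c1 c2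
  have t2 := dist_triangle4 p1 s1 s2 p2
  have t3 := dist_triangle o p1 p2
  rw [dist_comm s2 p2] at t2
  have t4 := pd_tri (hSne A) p1 (m2 • q1) p2
  have t5 := pd_tri (hSne A) (m2 • q1) (m2 • q2) p2
  have t6 := pd_le_dist (hSne A) p1 (m2 • q1)
  have t7 := pd_le_dist (hSne A) (m2 • q2) p2
  rw [dist_comm (m2 • q2) p2] at t7
  have t8 := TB.mono Y A (c := 0) le_rfl (o := m2 • o) (v := m2 • v) (q₁ := m2 • q1)
    (q₂ := m2 • q2) (by rw [exc_smul]; exact hq1.le) (by rw [exc_smul]; exact hq2.le)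
  linarith

end Pool.Agent.H553.AN
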